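import Pool.Agent.helper66.PX.Spec

/-!
# Row px:ST (MP_3938c6_al): the staircase argument.
-/

set_option autoImplicit false

noncomputable section

namespace Pool.Agent.PX

universe u v w

section aux

variable {K : Type u} {M : Type w} [Field K] [AddCommGroup M] [Module K M]

/-- the endomorphism `Y k` acts on `V 0, …, V m` as a matrix unit. -/
def ST_unit (n m : ℕ) (V : ℕ → M) (k : ℕ) (y : Module.End K M) : Prop :=
  k < n → ∀ h, h ≤ m → y (V h) = if h = (k + 1) / 2 then V (k / 2) else 0

lemma ST_range (n m : ℕ) (hm : m = n / 2) (V : ℕ → M) (Y : ℕ → Module.End K M)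
    (hY : ∀ k, ST_unit n m V k (Y k)) :
    ∀ r j : ℕ, j + r ≤ n → ((List.range' j r).map Y).prod (V ((j + r) / 2)) = V (j / 2) := by
  intro r
  induction r with
  | zero => intro j _; simp
  | succ r ih =>
    intro j hj
    have h1 := ih (j + 1) (by omega)
    have h2 := hY j (by omega) ((j + 1) / 2) (by omega)
    rw [if_pos rfl] at h2
    rw [List.range'_succ, List.map_cons, List.prod_cons, Module.End.mul_apply]
    rw [show j + (r + 1) = j + 1 + r by ring, h1, h2]

lemma ST_chain (n m : ℕ) (hm : m = n / 2) (V : ℕ → M) (Y : ℕ → Module.End K M)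
    (hY : ∀ k, ST_unit n m V k (Y k)) (h : ℕ) (hh : h ≤ m) :
    ∀ a : List ℕ, (∀ k ∈ a, k < n) →
      (a.map Y).prod (V h) = 0 ∨
      (List.IsChain (fun k k' => (k + 1) / 2 = k' / 2) a ∧
        (a.map Y).prod (V h) = V ((a.head?.map (· / 2)).getD h)) := by
  intro a
  induction a with
  | nil => intro _; right; simp
  | cons k a ih =>
    intro ha
    have hk : k < n := ha k (by simp)
    have ha' : ∀ k ∈ a, k < n := fun x hx => ha x (by simp [hx])
    rw [List.map_cons, List.prod_cons, Module.End.mul_apply]
    rcases ih ha' with h0 | ⟨hc, he⟩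
    · left; rw [h0, map_zero]
    · rw [he]
      cases a with
      | nil =>
        simp only [List.head?_nil, Option.map_none, Option.getD_none]
        have := hY k hk h hh
        rw [this]
        split_ifs with hif
        · right; simp
        · left; rfl
      | cons k' a' =>
        simp only [List.head?_cons, Option.map_some, Option.getD_some]
        have hk' : k' < n := ha' k' (by simp)
        have := hY k hk (k' / 2) (by omega)
        rw [this]
        split_ifs with hif
        · right
          refine ⟨?_, by simp⟩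
          rw [List.isChain_cons_cons]
          exact ⟨hif.symm, hc⟩
        · left; rfl

end aux

section lists

lemma ST_map_idxOf {w : List ℕ} (hw : w.Nodup) : w.map (fun i => w.idxOf i) = List.range w.length := by
  apply List.ext_getElem
  · simp
  · intro i h1 h2
    simp only [List.getElem_map, List.getElem_range]
    exact hw.idxOf_getElem i (by simpa using h1)

lemma ST_chain_lt : ∀ a : List ℕ, a.Nodup → List.IsChain (fun k k' => (k + 1) / 2 = k' / 2) a →
    List.IsChain (· < ·) a := by
  intro a
  induction a with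
  | nil => intro _ _; exact List.IsChain.nil
  | cons k a ih =>
    intro hn hc
    cases a with
    | nil => simp
    | cons k' a' =>
      rw [List.isChain_cons_cons] at hc ⊢
      refine ⟨?_, ih (List.nodup_cons.1 hn).2 hc.2⟩
      have hne : k ≠ k' := by
        intro h
        subst h
        simp at hn
      have := hc.1
      omega

lemma ST_eq_range {n : ℕ} {a : List ℕ} (hp : a.Perm (List.range n))
    (hc : List.IsChain (fun k k' => (k + 1) / 2 = k' / 2) a) : a = List.range n := by
  have hn : a.Nodup := hp.nodup_iff.2 List.nodup_range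
  have h1 := List.isChain_iff_pairwise.1 (ST_chain_lt a hn hc)
  have h2 : (List.range n).Pairwise (· < ·) := List.pairwise_lt_range
  exact List.Perm.eq_of_pairwise (fun x y _ _ h h' => absurd (lt_trans h h') (lt_irrefl _)) h1 h2 hp

lemma ST_eq_of_map {w₀ w : List ℕ} (hp : w.Perm w₀)
    (h : w.map (fun i => w₀.idxOf i) = w₀.map (fun i => w₀.idxOf i)) : w = w₀ := by
  have key : ∀ l : List ℕ, (∀ i ∈ l, i ∈ w₀) →
      (l.map (fun i => w₀.idxOf i)).map (fun k => w₀.getD k 0) = l := by
    intro l hl
    rw [List.map_map]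
    conv_rhs => rw [← List.map_id l]
    apply List.map_congr_left
    intro i hi
    have hlt : w₀.idxOf i < w₀.length := List.idxOf_lt_length_of_mem (hl i hi)
    simp only [Function.comp_apply, id]
    rw [List.getD_eq_getElem _ _ hlt]
    exact List.getElem_idxOf hlt
  rw [← key w (fun i hi => hp.mem_iff.1 hi), h, key w₀ (fun i hi => hi)]

end lists

theorem ST_main (hEXT : EXT_stmt.{u, w}) (K : Type u) (S : Type v) (M L : Type w) [Field K] [Ring S]
    [Algebra K S] [AddCommGroup M] [Module K M] [Module S M] [IsScalarTower K S M] [Field L]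
    [Algebra K L] [Module L M] [IsScalarTower K L M] [SMulCommClass S L M] (J : Ideal S) (n : ℕ)
    (hD : DenseJ S M L J)
    (hI : ∃ (s : List ℕ) (c : List ℕ → K), s.Nodup ∧ s.length = n ∧ (∃ w : List ℕ, w.Perm s ∧ c w ≠ 0) ∧
      ∀ x : ℕ → S, (∀ i, x i ∈ J) → EV c s x = 0)
    (v : Fin (n / 2 + 1) → M) (hv : LinearIndependent L v) : False := by
  classical
  obtain ⟨s, c, hs, hsn, ⟨w₀, hw₀, hc⟩, hid⟩ := hI
  obtain ⟨m, hm⟩ : ∃ m, m = n / 2 := ⟨_, rfl⟩
  let V : ℕ → M := fun h => if hh : h < n / 2 + 1 then v ⟨h, hh⟩ else 0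
  have hV : ∀ h : Fin (n / 2 + 1), V h = v h := by
    intro h
    simp only [V, h.2, dif_pos]
  -- the two actions
  let ρ : S →ₐ[K] Module.End K M := Algebra.lsmul K K M
  let lam : L →ₐ[K] Module.End K M := Algebra.lsmul K K M
  have hρ : ∀ (a : S) (x : M), ρ a x = a • x := fun a x => rfl
  have hlam : ∀ (a : L) (x : M), lam a x = a • x := fun a x => rfl
  have hcomm : ∀ (a : S) (l : L), lam l * ρ a = ρ a * lam l := by
    intro a l
    ext x
    simp only [Module.End.mul_apply, hρ, hlam]
    exact (smul_comm a l x).symm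
  -- the matrix units
  have hunit : ∀ k : ℕ, ∃ y : Module.End K M,
      y ∈ Submodule.span K {y : Module.End K M | ∃ γ ∈ Set.range lam, ∃ a ∈ ρ '' (J : Set S), y = γ * a} ∧
      ST_unit n m V k y := by
    intro k
    by_cases hk : k < n
    · -- an L-linear map with the right values
      have hφ : ∃ φ : M →ₗ[L] M, ∀ h : Fin (n / 2 + 1),
          φ (v h) = if (h : ℕ) = (k + 1) / 2 then V (k / 2) else 0 := by
        let b := Module.Basis.span hv
        let f : Submodule.span L (Set.range v) →ₗ[L] M :=
          b.constr L (fun h : Fin (n / 2 + 1) => if (h : ℕ) = (k + 1) / 2 then V (k / 2) else 0)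
        obtain ⟨g, hg⟩ := LinearMap.exists_extend f
        refine ⟨g, fun h => ?_⟩
        have h1 : g (b h : M) = f (b h) := by
          rw [← hg]; rfl
        have h2 : (b h : M) = v h := Module.Basis.coe_span_apply hv h
        rw [h2] at h1
        rw [h1]
        exact b.constr_basis L _ h
      obtain ⟨φ, hφ⟩ := hφ
      obtain ⟨l, hl, hlφ⟩ := hD φ (Finset.univ.image v)
      refine ⟨(l.map fun p => lam p.1 * ρ p.2).sum, ?_, ?_⟩
      · apply list_sum_mem
        intro y hy
        rw [List.mem_map] at hy
        obtain ⟨p, hp, rfl⟩ := hy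
        apply Submodule.subset_span
        exact ⟨lam p.1, ⟨p.1, rfl⟩, ρ p.2, ⟨p.2, hl p hp, rfl⟩, rfl⟩
      · intro _ h hh
        have hh' : h < n / 2 + 1 := by omega
        have e1 : V h = v ⟨h, hh'⟩ := hV ⟨h, hh'⟩
        have e2 := hlφ (v ⟨h, hh'⟩) (Finset.mem_image_of_mem _ (Finset.mem_univ _))
        have e3 : ∀ (l : List (L × S)) (x : M), (l.map fun p => lam p.1 * ρ p.2).sum x =
            (l.map fun p => p.1 • p.2 • x).sum := by
          intro l x
          induction l with
          | nil => simp
          | cons p l ih =>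
            simp only [List.map_cons, List.sum_cons, LinearMap.add_apply, ih, Module.End.mul_apply, hρ, hlam]
        rw [e1, e3, ← e2, hφ]
    · exact ⟨0, Submodule.zero_mem _, fun h => absurd h hk⟩
  choose Y hY1 hY2 using hunit
  -- the identity on E
  have hE := hEXT K (Module.End K M) (ρ '' (J : Set S)) (Set.range lam)
    ⟨0, J.zero_mem, map_zero _⟩
    (by
      rintro γ ⟨l, rfl⟩ a ⟨j, _, rfl⟩
      exact hcomm j l)
    (by
      rintro γ ⟨l, rfl⟩ δ ⟨l', rfl⟩
      rw [← map_mul, ← map_mul, mul_comm])
    s c hs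
    (by
      intro x hx
      choose p hp hpx using hx
      have : x = fun i => ρ (p i) := by
        funext i
        exact (hpx i).symm
      rw [this, ← EV_map, hid p hp, map_zero])
    (fun i => Y (w₀.idxOf i)) (fun i => hY1 _)
  have hw₀n : w₀.length = n := by rw [hw₀.length_eq, hsn]
  have hw₀d : w₀.Nodup := hw₀.nodup_iff.2 hs
  have hmap : ∀ w : List ℕ, w.map (fun i => Y (w₀.idxOf i)) = (w.map (fun i => w₀.idxOf i)).map Y := by
    intro w
    rw [List.map_map]
    rfl
  have hmem₀ : w₀ ∈ s.permutations.toFinset := by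
    rw [List.mem_toFinset, List.mem_permutations]
    exact hw₀
  have hsum : (EV c s (fun i => Y (w₀.idxOf i))) (V m) = c w₀ • V 0 := by
    unfold EV
    rw [LinearMap.sum_apply, Finset.sum_eq_single w₀]
    · rw [LinearMap.smul_apply, hmap, ST_map_idxOf hw₀d, hw₀n]
      have := ST_range n m hm V Y hY2 n 0 (by omega)
      rw [List.range_eq_range']
      rw [zero_add, Nat.zero_div, ← hm] at this
      rw [this]
    · intro w hw hne
      rw [List.mem_toFinset, List.mem_permutations] at hw
      have hww : w.Perm w₀ := hw.trans hw₀.symm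
      rw [LinearMap.smul_apply, hmap]
      have hlt : ∀ k ∈ w.map (fun i => w₀.idxOf i), k < n := by
        intro k hk
        rw [List.mem_map] at hk
        obtain ⟨i, hi, rfl⟩ := hk
        rw [← hw₀n]
        exact List.idxOf_lt_length_of_mem (hww.mem_iff.1 hi)
      rcases ST_chain n m hm V Y hY2 m le_rfl _ hlt with h0 | ⟨hch, _⟩
      · rw [h0, smul_zero]
      · exfalso
        apply hne
        have hp : (w.map (fun i => w₀.idxOf i)).Perm (List.range n) := by
          rw [← hw₀n, ← ST_map_idxOf hw₀d]
          exact hww.map _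
        have := ST_eq_range hp hch
        apply ST_eq_of_map hww
        rw [this, ST_map_idxOf hw₀d, hw₀n]
    · intro h
      exact absurd hmem₀ h
  rw [hE, LinearMap.zero_apply] at hsum
  have hV0 : V 0 ≠ 0 := by
    have := hV ⟨0, by omega⟩
    have h1 : V 0 = v ⟨0, by omega⟩ := this
    rw [h1]
    exact hv.ne_zero _
  exact (smul_ne_zero hc hV0) hsum.symm

theorem ST (hEXT : EXT_stmt.{u, w}) : ST_stmt.{u, v, w} := by
  intro K S M L _ _ _ _ _ _ _ _ _ _ _ _ J n hD hI
  have hr : ¬ (((n / 2 + 1 : ℕ) : Cardinal) ≤ Module.rank L M) := by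
    intro h
    rw [le_rank_iff_exists_linearIndependent_finset] at h
    obtain ⟨t, ht, hli⟩ := h
    let e : Fin (n / 2 + 1) ≃ (t : Set M) := (finCongr ht.symm).trans t.equivFin.symm
    exact ST_main hEXT K S M L J n hD hI (fun i => ((e i : (t : Set M)) : M)) (hli.comp e e.injective)
  push Not at hr
  have hfin : Module.Finite L M := Module.rank_lt_aleph0_iff.1 (hr.trans (Cardinal.natCast_lt_aleph0))
  refine ⟨hfin, ?_⟩
  rw [← Module.finrank_eq_rank] at hr
  have : Module.finrank L M < n / 2 + 1 := by exact_mod_cast hr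
  omega

end Pool.Agent.PX
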